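import Pool.Agent.H306R2.SM.Defs

set_option autoImplicit false

/-!
# T1 of the sixth moment project: from Gamma-weighted lower bounds to `∫_0^T`
-/

namespace Pool.Agent.H965R2.SMT1

open Finset Filter Topology MeasureTheory Pool.Agent.H306R2 Pool.Agent.H306R2.SM

noncomputable section

/-- Poisson tail -/
def Ph (k : ℕ) (u : ℝ) : ℝ := Real.exp (-u) * ∑ j ∈ range k, u ^ j / (j.factorial : ℝ)

theorem Ph_nonneg (k : ℕ) {u : ℝ} (hu : 0 ≤ u) : 0 ≤ Ph k u := by
  unfold Ph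
  positivity

theorem Ph_le_one (k : ℕ) {u : ℝ} (hu : 0 ≤ u) : Ph k u ≤ 1 := by
  unfold Ph
  rw [Real.exp_neg, inv_mul_le_iff₀ (Real.exp_pos u), mul_one]
  exact Real.sum_le_exp_of_nonneg hu k

theorem Ph_chernoff (k : ℕ) {v : ℝ} (hv : 1 ≤ v) :
    Ph k (k * v) ≤ (v * Real.exp (1 - v)) ^ k := by
  unfold Ph
  have h1 : ∑ j ∈ range k, ((k : ℝ) * v) ^ j / (j.factorial : ℝ) ≤
      v ^ k * Real.exp k := by
    calc ∑ j ∈ range k, ((k : ℝ) * v) ^ j / (j.factorial : ℝ)
        ≤ ∑ j ∈ range k, v ^ k * ((k : ℝ) ^ j / (j.factorial : ℝ)) := by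
          apply Finset.sum_le_sum
          intro j hj
          rw [mul_pow, mul_comm ((k : ℝ) ^ j), mul_div_assoc]
          apply mul_le_mul_of_nonneg_right _ (by positivity)
          exact pow_le_pow_right₀ hv (Finset.mem_range.1 hj).le
      _ = v ^ k * ∑ j ∈ range k, (k : ℝ) ^ j / (j.factorial : ℝ) := by rw [Finset.mul_sum]
      _ ≤ v ^ k * Real.exp k :=
          mul_le_mul_of_nonneg_left (Real.sum_le_exp_of_nonneg (by positivity) k) (by positivity)
  have h2 : (v * Real.exp (1 - v)) ^ k = Real.exp (-(k * v)) * (v ^ k * Real.exp k) := by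
    rw [mul_pow, ← Real.exp_nat_mul, mul_left_comm, ← Real.exp_add]
    congr 2
    ring
  rw [h2]
  exact mul_le_mul_of_nonneg_left h1 (Real.exp_pos _).le

theorem Ph_hasDeriv (k : ℕ) (u : ℝ) :
    HasDerivAt (Ph (k + 1)) (-(Real.exp (-u) * u ^ k / (k.factorial : ℝ))) u := by
  induction k with
  | zero =>
    have h1 : Ph 1 = fun u => Real.exp (-u) := by
      funext u
      simp [Ph]
    rw [zero_add, h1]
    have h2 : HasDerivAt (fun x : ℝ => Real.exp (-x)) (Real.exp (-u) * (-1)) u :=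
      (hasDerivAt_neg u).exp
    exact h2.congr_deriv (by simp)
  | succ k ih =>
    have h1 : Ph (k + 1 + 1) = fun u => Ph (k + 1) u +
        Real.exp (-u) * (u ^ (k + 1) / ((k + 1).factorial : ℝ)) := by
      funext u
      unfold Ph
      rw [Finset.sum_range_succ _ (k + 1), mul_add]
    rw [h1]
    have h2 : HasDerivAt (fun x : ℝ => Real.exp (-x)) (Real.exp (-u) * (-1)) u :=
      (hasDerivAt_neg u).exp
    have h3 := (hasDerivAt_pow (k + 1) u).div_const ((k + 1).factorial : ℝ)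
    have h4 := ih.add (h2.mul h3)
    refine HasDerivAt.congr_deriv h4 ?_
    rw [Nat.factorial_succ]
    have hk : (k.factorial : ℝ) ≠ 0 := by positivity
    have hk1 : ((k : ℝ) + 1) ≠ 0 := by positivity
    simp only [Nat.add_sub_cancel]
    push_cast
    field_simp
    ring

theorem W_hasDeriv {k : ℕ} (hk : 1 ≤ k) {t x : ℝ} (ht : 0 < t) (hx : 0 < x) :
    HasDerivAt (fun y => Ph k (k * t / y)) (om k (k / x) t) x := by
  obtain ⟨k, rfl⟩ : ∃ k', k = k' + 1 := ⟨k - 1, by omega⟩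
  have h1 : HasDerivAt (fun y : ℝ => ((k + 1 : ℕ) : ℝ) * t / y)
      (-(((k + 1 : ℕ) : ℝ) * t / x ^ 2)) x := by
    have := (hasDerivAt_inv hx.ne').const_mul (((k + 1 : ℕ) : ℝ) * t)
    simpa only [div_eq_mul_inv, mul_neg] using this
  have h2 := (Ph_hasDeriv k (((k + 1 : ℕ) : ℝ) * t / x)).comp x h1
  refine HasDerivAt.congr_deriv h2 ?_
  unfold om
  have e : -(((k + 1 : ℕ) : ℝ) / x * t) = -(((k + 1 : ℕ) : ℝ) * t / x) := by ring
  rw [e, Nat.factorial_succ]
  have hk0 : (k.factorial : ℝ) ≠ 0 := by positivity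
  have hk1 : ((k : ℝ) + 1) ≠ 0 := by positivity
  have e1 : ((k + 1 : ℕ) : ℝ) * t / x = ((k + 1 : ℕ) : ℝ) / x * t := by ring
  rw [show (((k + 1 : ℕ) : ℝ) * t / x) ^ k = (((k + 1 : ℕ) : ℝ) / x) ^ k * t ^ k by
    rw [e1, mul_pow], pow_succ (((k + 1 : ℕ) : ℝ) / x) (k + 1), pow_succ (((k + 1 : ℕ) : ℝ) / x) k]
  generalize (((k + 1 : ℕ) : ℝ) / x) ^ k = A
  push_cast
  field_simp
  ring

theorem om_nonneg {k : ℕ} {δ t : ℝ} (hδ : 0 ≤ δ) (ht : 0 ≤ t) : 0 ≤ om k δ t := by
  unfold om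
  positivity

theorem lint_W {k : ℕ} (hk : 1 ≤ k) {t a b : ℝ} (ht : 0 < t) (ha : 0 < a) (hab : a ≤ b) :
    ∫⁻ x in Set.Ioc a b, ENNReal.ofReal (om k (k / x) t) ≤ ENNReal.ofReal (Ph k (k * t / b)) := by
  have hcont : ContinuousOn (fun x : ℝ => om k (k / x) t) (Set.uIcc a b) := by
    rw [Set.uIcc_of_le hab]
    unfold om
    have h1 : ContinuousOn (fun x : ℝ => (k : ℝ) / x) (Set.Icc a b) :=
      continuousOn_const.div continuousOn_id fun x hx => (ha.trans_le hx.1).ne'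
    exact (((h1.pow _).mul continuousOn_const).mul
      ((h1.mul continuousOn_const).neg.rexp)).div_const _
  have hint : IntervalIntegrable (fun x : ℝ => om k (k / x) t) volume a b :=
    hcont.intervalIntegrable
  have h1 : ∫ x in a..b, om k (k / x) t = Ph k (k * t / b) - Ph k (k * t / a) := by
    apply intervalIntegral.integral_eq_sub_of_hasDerivAt (f := fun y => Ph k (k * t / y)) _ hint
    intro x hx
    rw [Set.uIcc_of_le hab] at hx
    exact W_hasDeriv hk ht (ha.trans_le hx.1)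
  rw [intervalIntegral.integral_of_le hab] at h1
  rw [← ofReal_integral_eq_lintegral_ofReal
    ((intervalIntegrable_iff_integrableOn_Ioc_of_le hab).1 hint), h1]
  · apply ENNReal.ofReal_le_ofReal
    have := Ph_nonneg k (u := k * t / a) (by positivity)
    linarith
  · filter_upwards [ae_restrict_mem measurableSet_Ioc] with x hx
    have hx0 : 0 < x := ha.trans hx.1
    exact om_nonneg (by positivity) ht.le

theorem gam {v0 v : ℝ} (h0 : 1 < v0) (hv : v0 ≤ v) :
    v * Real.exp (1 - v) ≤ Real.exp (-((v0 - 1 - Real.log v0) / v0 * v)) := by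
  have hv0 : 0 < v0 := by linarith
  have hvpos : 0 < v := by linarith
  have h1 : Real.log v ≤ Real.log v0 + (v / v0 - 1) := by
    have := Real.log_le_sub_one_of_pos (div_pos hvpos hv0)
    rw [Real.log_div hvpos.ne' hv0.ne'] at this
    linarith
  have h2 : v * Real.exp (1 - v) = Real.exp (Real.log v + (1 - v)) := by
    rw [Real.exp_add, Real.exp_log hvpos]
  rw [h2]
  apply Real.exp_le_exp.2
  have hl0 : 0 < Real.log v0 := Real.log_pos h0
  have h3 : Real.log v0 ≤ Real.log v0 / v0 * v := by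
    rw [div_mul_eq_mul_div, le_div_iff₀ hv0]
    exact mul_le_mul_of_nonneg_left hv hl0.le
  have h4 : (v0 - 1 - Real.log v0) / v0 * v = v - v / v0 - Real.log v0 / v0 * v := by
    field_simp
  rw [h4]
  linarith

theorem gam_pos {v0 : ℝ} (h0 : 1 < v0) : 0 < (v0 - 1 - Real.log v0) / v0 := by
  have hv0 : 0 < v0 := by linarith
  apply div_pos _ hv0
  have := Real.log_lt_sub_one_of_pos hv0 h0.ne'
  linarith

/-- main inequality for one `T` -/
theorem main_T {f : ℝ → ℝ} (hf : Continuous f) (hf0 : ∀ t, 0 ≤ f t) {k : ℕ} (hk : 1 ≤ k)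
    {a b T c1 : ℝ} (ha : 0 < a) (hab : a ≤ b) (hbT : b ≤ T) (hc1 : 0 ≤ c1)
    (hlow : ∀ x ∈ Set.Ioc a b, c1 ≤ ∫ t in Set.Ioi (0 : ℝ), om k (k / x) t * f t)
    (htail : ∀ t, T < t → f t * Ph k (k * t / b) ≤ t ^ (-2 : ℝ)) :
    c1 * (b - a) ≤ (∫ t in (0 : ℝ)..T, f t) + 1 / T := by
  have hb : 0 < b := ha.trans_le hab
  have hT : 0 < T := hb.trans_le hbT
  have hstep1 : ENNReal.ofReal (c1 * (b - a)) ≤
      ∫⁻ x in Set.Ioc a b, ∫⁻ t in Set.Ioi (0 : ℝ), ENNReal.ofReal (om k (k / x) t * f t) := by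
    have h1 : ENNReal.ofReal (c1 * (b - a)) = ∫⁻ _ in Set.Ioc a b, ENNReal.ofReal c1 := by
      rw [setLIntegral_const, Real.volume_Ioc, ENNReal.ofReal_mul hc1]
    rw [h1]
    apply setLIntegral_mono' measurableSet_Ioc
    intro x hx
    have hx0 : 0 < x := ha.trans hx.1
    refine (ENNReal.ofReal_le_ofReal (hlow x hx)).trans ?_
    rw [integral_eq_lintegral_of_nonneg_ae]
    · exact ENNReal.ofReal_toReal_le
    · filter_upwards [ae_restrict_mem measurableSet_Ioi] with t ht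
      exact mul_nonneg (om_nonneg (by positivity) (le_of_lt ht)) (hf0 t)
    · apply Measurable.aestronglyMeasurable
      unfold om
      fun_prop
  have hmeas : Measurable (Function.uncurry fun (x t : ℝ) =>
      ENNReal.ofReal (om k (k / x) t * f t)) := by
    unfold om Function.uncurry
    have := hf.measurable
    fun_prop
  rw [lintegral_lintegral_swap hmeas.aemeasurable] at hstep1
  have hstep2 : ∫⁻ t in Set.Ioi (0 : ℝ), ∫⁻ x in Set.Ioc a b,
      ENNReal.ofReal (om k (k / x) t * f t) ≤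
      ∫⁻ t in Set.Ioi (0 : ℝ), ENNReal.ofReal (f t) * ENNReal.ofReal (Ph k (k * t / b)) := by
    apply setLIntegral_mono' measurableSet_Ioi
    intro t ht
    have h1 : ∀ x, ENNReal.ofReal (om k (k / x) t * f t) =
        ENNReal.ofReal (f t) * ENNReal.ofReal (om k (k / x) t) := by
      intro x
      rw [mul_comm, ENNReal.ofReal_mul (hf0 t)]
    simp_rw [h1]
    rw [lintegral_const_mul' _ _ ENNReal.ofReal_ne_top]
    gcongr
    exact lint_W hk ht ha hab
  have hsplit : Set.Ioi (0 : ℝ) = Set.Ioc 0 T ∪ Set.Ioi T := (Set.Ioc_union_Ioi_eq_Ioi hT.le).symm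
  have hstep3 : ∫⁻ t in Set.Ioi (0 : ℝ), ENNReal.ofReal (f t) * ENNReal.ofReal (Ph k (k * t / b)) ≤
      ENNReal.ofReal ((∫ t in (0 : ℝ)..T, f t) + 1 / T) := by
    rw [hsplit, lintegral_union measurableSet_Ioi (Set.Ioc_disjoint_Ioi le_rfl),
      ENNReal.ofReal_add (intervalIntegral.integral_nonneg hT.le fun t _ => hf0 t)
        (by positivity)]
    apply add_le_add
    · rw [intervalIntegral.integral_of_le hT.le, ofReal_integral_eq_lintegral_ofReal
        ((hf.intervalIntegrable 0 T).1) (Filter.Eventually.of_forall fun t => hf0 t)]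
      apply setLIntegral_mono' measurableSet_Ioc
      intro t ht
      have h1 : Ph k (k * t / b) ≤ 1 := Ph_le_one k (by have := ht.1; positivity)
      calc ENNReal.ofReal (f t) * ENNReal.ofReal (Ph k (k * t / b))
          ≤ ENNReal.ofReal (f t) * 1 := by
            gcongr
            exact ENNReal.ofReal_le_one.2 h1
        _ = ENNReal.ofReal (f t) := mul_one _
    · have h1 : ENNReal.ofReal (1 / T) = ∫⁻ t in Set.Ioi T, ENNReal.ofReal (t ^ (-2 : ℝ)) := by
        rw [← ofReal_integral_eq_lintegral_ofReal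
          (integrableOn_Ioi_rpow_of_lt (by norm_num) hT), integral_Ioi_rpow_of_lt (by norm_num) hT]
        · congr 1
          norm_num
          rw [Real.rpow_neg_one]
        · filter_upwards [ae_restrict_mem measurableSet_Ioi] with t ht
          exact Real.rpow_nonneg (hT.trans ht).le _
      rw [h1]
      apply setLIntegral_mono' measurableSet_Ioi
      intro t ht
      rw [← ENNReal.ofReal_mul (hf0 t)]
      exact ENNReal.ofReal_le_ofReal (htail t ht)
  have h5 := hstep1.trans (hstep2.trans hstep3)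
  rwa [ENNReal.ofReal_le_ofReal_iff (add_nonneg
    (intervalIntegral.integral_nonneg hT.le fun t _ => hf0 t) (by positivity))] at h5

theorem tail_bound {f : ℝ → ℝ} (hf0 : ∀ t, 0 ≤ f t) {C : ℝ} {A : ℕ} (hC : 0 ≤ C)
    (hCA : ∀ t : ℝ, 0 ≤ t → f t ≤ C * (1 + t) ^ A) {σ T : ℝ} (hσ0 : 0 < σ) (hσ1 : σ < 1)
    (hT : 1 ≤ T) (hCT : C * 2 ^ A ≤ T) (hL1 : 1 ≤ Real.log T)
    (hL2 : 2 * (A : ℝ) + 5 ≤ 2 * ((1 / σ - 1 - Real.log (1 / σ)) / (1 / σ)) * Real.log T)
    {k : ℕ} (hk : 2 * Real.log T ^ 2 ≤ k) {t : ℝ} (ht : T < t) :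
    f t * Ph k (k * t / (σ * T)) ≤ t ^ (-2 : ℝ) := by
  have hT0 : 0 < T := by linarith
  have ht0 : 0 < t := by linarith
  have hv0 : 1 < 1 / σ := by rw [lt_div_iff₀ hσ0]; linarith
  set γ := (1 / σ - 1 - Real.log (1 / σ)) / (1 / σ) with hγ
  have hγ0 : 0 < γ := gam_pos hv0
  set L := Real.log T with hL
  set v := t / (σ * T) with hv
  have hvv : 1 / σ ≤ v := by
    rw [hv, div_le_div_iff₀ hσ0 (by positivity)]
    nlinarith
  set x := t / T with hx
  have hx1 : 1 ≤ x := by rw [hx, le_div_iff₀ hT0]; linarith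
  have hxv : x ≤ v := by
    rw [hx, hv]
    apply div_le_div_of_nonneg_left ht0.le (by positivity)
    nlinarith
  have h1 : Ph k (k * t / (σ * T)) ≤ Real.exp (-(γ * k * x)) := by
    rw [mul_div_assoc]
    refine (Ph_chernoff k (by linarith)).trans ?_
    have h2 := gam hv0 hvv
    refine (pow_le_pow_left₀ (by positivity) h2 k).trans ?_
    rw [← Real.exp_nat_mul]
    apply Real.exp_le_exp.2
    have h3 : γ * k * x ≤ γ * k * v := mul_le_mul_of_nonneg_left hxv (by positivity)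
    rw [← hγ]
    linarith
  have h2 : f t ≤ C * 2 ^ A * t ^ A := by
    refine (hCA t ht0.le).trans ?_
    rw [mul_assoc, ← mul_pow]
    apply mul_le_mul_of_nonneg_left _ hC
    apply pow_le_pow_left₀ (by linarith)
    linarith
  have htx : t = T * x := by rw [hx]; field_simp
  have hexpL : Real.exp L = T := Real.exp_log hT0
  have h3 : C * 2 ^ A * t ^ A * t ^ 2 ≤ Real.exp (γ * k * x) := by
    have h4 : t ^ (A + 2) ≤ Real.exp (((A : ℝ) + 2) * ((L + 1) * x)) := by
      have h5 : t ≤ Real.exp ((L + 1) * x) := by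
        rw [htx]
        have h6 : x ≤ Real.exp x := by have := Real.add_one_le_exp x; linarith
        have h7 : T ≤ Real.exp (L * x) := by
          conv_lhs => rw [← hexpL]
          apply Real.exp_le_exp.2
          nlinarith
        calc T * x ≤ Real.exp (L * x) * Real.exp x :=
              mul_le_mul h7 h6 (by linarith) (Real.exp_pos _).le
          _ = Real.exp ((L + 1) * x) := by rw [← Real.exp_add]; congr 1; ring
      calc t ^ (A + 2) ≤ (Real.exp ((L + 1) * x)) ^ (A + 2) := pow_le_pow_left₀ ht0.le h5 _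
        _ = Real.exp (((A : ℝ) + 2) * ((L + 1) * x)) := by
            rw [← Real.exp_nat_mul]; push_cast; rfl
    have h5 : C * 2 ^ A ≤ Real.exp (L * x) := by
      refine hCT.trans ?_
      conv_lhs => rw [← hexpL]
      apply Real.exp_le_exp.2
      nlinarith
    calc C * 2 ^ A * t ^ A * t ^ 2 = C * 2 ^ A * t ^ (A + 2) := by ring
      _ ≤ Real.exp (L * x) * Real.exp (((A : ℝ) + 2) * ((L + 1) * x)) :=
          mul_le_mul h5 h4 (by positivity) (Real.exp_pos _).le
      _ = Real.exp ((L + ((A : ℝ) + 2) * (L + 1)) * x) := by rw [← Real.exp_add]; congr 1; ring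
      _ ≤ Real.exp (γ * k * x) := by
          apply Real.exp_le_exp.2
          apply mul_le_mul_of_nonneg_right _ (by linarith)
          have h6 : L + ((A : ℝ) + 2) * (L + 1) ≤ (2 * A + 5) * L := by
            have hA0 : (0 : ℝ) ≤ A := by positivity
            nlinarith
          have h7 : (2 * (A : ℝ) + 5) * L ≤ 2 * γ * L * L :=
            mul_le_mul_of_nonneg_right hL2 (by linarith)
          have h8 : γ * (2 * L ^ 2) ≤ γ * k := mul_le_mul_of_nonneg_left hk hγ0.le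
          nlinarith
  have h4 : t ^ (-2 : ℝ) = (t ^ 2)⁻¹ := by
    rw [Real.rpow_neg ht0.le]
    norm_num
  rw [h4, ← one_div, le_div_iff₀ (by positivity)]
  have hPh0 : 0 ≤ Ph k (k * t / (σ * T)) := Ph_nonneg k (by positivity)
  calc f t * Ph k (k * t / (σ * T)) * t ^ 2
      ≤ (C * 2 ^ A * t ^ A) * Real.exp (-(γ * k * x)) * t ^ 2 := by
        apply mul_le_mul_of_nonneg_right _ (by positivity)
        exact mul_le_mul h2 h1 hPh0 (by positivity)
    _ = (C * 2 ^ A * t ^ A * t ^ 2) * Real.exp (-(γ * k * x)) := by ring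
    _ ≤ Real.exp (γ * k * x) * Real.exp (-(γ * k * x)) :=
        mul_le_mul_of_nonneg_right h3 (Real.exp_pos _).le
    _ = 1 := by rw [← Real.exp_add, add_neg_cancel, Real.exp_zero]

/-- T1 -/
theorem window_gamma (f : ℝ → ℝ) (hf : Continuous f) (hf0 : ∀ t, 0 ≤ f t)
    (hA : ∃ C : ℝ, ∃ A : ℕ, ∀ t : ℝ, 0 ≤ t → f t ≤ C * (1 + t) ^ A) (c : ℝ) (hc : 0 ≤ c) (m : ℕ)
    (h : ∀ᶠ T : ℝ in atTop, ∀ k : ℕ, Real.log T ^ 2 ≤ k → (k : ℝ) ≤ 4 * Real.log T ^ 2 →
      c * Real.log T ^ m ≤ ∫ t in Set.Ioi (0 : ℝ), om k (k / T) t * f t) :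
    ∀ c' < c, ∀ᶠ T : ℝ in atTop, c' * T * Real.log T ^ m ≤ ∫ t in (0 : ℝ)..T, f t := by
  intro c' hc'
  obtain ⟨ρ, hρ1, hρ2, hρ3⟩ : ∃ ρ : ℝ, 1 / 2 < ρ ∧ ρ < 1 ∧ c' < c * ρ ^ (m + 1) := by
    have h1 : Tendsto (fun ρ : ℝ => c * ρ ^ (m + 1)) (𝓝[<] 1) (𝓝 (c * 1 ^ (m + 1))) :=
      (Continuous.tendsto (by fun_prop) 1).mono_left nhdsWithin_le_nhds
    rw [one_pow, mul_one] at h1
    have h2 := h1.eventually_const_lt hc'
    have h3 : ∀ᶠ ρ : ℝ in 𝓝[<] 1, 1 / 2 < ρ :=
      (eventually_gt_nhds (by norm_num)).filter_mono nhdsWithin_le_nhds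
    have h4 : ∀ᶠ ρ : ℝ in 𝓝[<] 1, ρ < 1 := self_mem_nhdsWithin
    obtain ⟨ρ, ha, hb, hc⟩ := (h2.and (h3.and h4)).exists
    exact ⟨ρ, hb, hc, ha⟩
  set σ : ℝ := (1 + ρ) / 2 with hσ
  have hσ0 : 0 < σ := by linarith
  have hσ1 : σ < 1 := by linarith
  set γ := (1 / σ - 1 - Real.log (1 / σ)) / (1 / σ) with hγ
  have hv0 : 1 < 1 / σ := by rw [lt_div_iff₀ hσ0]; linarith
  have hγ0 : 0 < γ := gam_pos hv0
  obtain ⟨C, A, hCA⟩ := hA
  have hC : 0 ≤ C := by
    have := hCA 0 le_rfl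
    simp only [add_zero, one_pow, mul_one] at this
    exact (hf0 0).trans this
  obtain ⟨T0, hT0⟩ := eventually_atTop.1 h
  set κ0 := c * ρ ^ (m + 1) - c' with hκ0
  have hκ0' : 0 < κ0 := by linarith
  have hlog := Real.tendsto_log_atTop
  have e1 : ∀ᶠ T : ℝ in atTop, Real.log T ≤ T ^ (1 / 2 : ℝ) := by
    have h1 := (isLittleO_log_rpow_atTop (r := 1 / 2) (by norm_num)).bound
      (show (0 : ℝ) < 1 by norm_num)
    filter_upwards [h1, eventually_ge_atTop (1 : ℝ)] with T hT hT1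
    rw [one_mul, Real.norm_of_nonneg (Real.log_nonneg hT1),
      Real.norm_of_nonneg (Real.rpow_nonneg (by linarith) _)] at hT
    exact hT
  have e2 : ∀ ε : ℝ, 0 < ε → ∀ᶠ T : ℝ in atTop,
      Real.log (Real.log T) ≤ ε * Real.log T := by
    intro ε hε
    have h1 := hlog.eventually (Real.isLittleO_log_id_atTop.bound hε)
    filter_upwards [h1, hlog.eventually_ge_atTop 1] with T hT hT1
    simp only [id_eq] at hT
    rw [Real.norm_of_nonneg (by linarith : (0 : ℝ) ≤ Real.log T)] at hT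
    exact (le_abs_self _).trans hT
  filter_upwards [e1, e2 (1 - ρ) (by linarith), e2 (1 / 8) (by norm_num),
    hlog.eventually_ge_atTop (max 1 (2 / (1 - ρ))),
    hlog.eventually_ge_atTop ((2 * (A : ℝ) + 5) / (2 * γ)),
    eventually_ge_atTop (max 1 (max (C * 2 ^ A) (1 / κ0))),
    eventually_ge_atTop ((max 1 T0) ^ 2)] with T t1 t2 t3 t4 t5 t6 t7
  set L := Real.log T with hL
  have hL1 : 1 ≤ L := (le_max_left _ _).trans t4
  have hL0 : 0 < L := by linarith
  have hL2 : 2 / (1 - ρ) ≤ L := (le_max_right _ _).trans t4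
  have hT1 : 1 ≤ T := (le_max_left _ _).trans t6
  have hTpos : 0 < T := by linarith
  have hCT : C * 2 ^ A ≤ T := (le_max_left _ _).trans ((le_max_right _ _).trans t6)
  have hκT : 1 / κ0 ≤ T := (le_max_right _ _).trans ((le_max_right _ _).trans t6)
  set a := T / L with ha
  have ha0 : 0 < a := by positivity
  have haT : max 1 T0 ≤ a := by
    have h1 : T ^ (1 / 2 : ℝ) ≤ a := by
      rw [ha, le_div_iff₀ hL0]
      calc T ^ (1 / 2 : ℝ) * L ≤ T ^ (1 / 2 : ℝ) * T ^ (1 / 2 : ℝ) :=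
            mul_le_mul_of_nonneg_left t1 (by positivity)
        _ = T := by
            rw [← Real.rpow_add hTpos]; norm_num
    refine le_trans ?_ h1
    have h2 : (0 : ℝ) ≤ max 1 T0 := le_trans (by norm_num) (le_max_left _ _)
    have h3 : max 1 T0 = ((max 1 T0) ^ 2) ^ (1 / 2 : ℝ) := by
      rw [← Real.rpow_natCast, ← Real.rpow_mul h2]; norm_num
    rw [h3]
    exact Real.rpow_le_rpow (by positivity) t7 (by norm_num)
  have hab : ρ * T ≤ σ * T - a := by
    have h1 : a ≤ (1 - ρ) / 2 * T := by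
      rw [ha, div_le_iff₀ hL0]
      have h2 : 1 ≤ (1 - ρ) / 2 * L := by
        rw [div_le_iff₀ (by linarith)] at hL2
        linarith
      nlinarith
    rw [hσ]
    linarith
  have hab' : a ≤ σ * T := by
    have : 0 < ρ * T := by positivity
    linarith
  have hbT : σ * T ≤ T := mul_le_of_le_one_left hTpos.le hσ1.le
  set k : ℕ := ⌈2 * L ^ 2⌉₊ with hk
  have hk1 : 2 * L ^ 2 ≤ k := Nat.le_ceil _
  have hk2 : (k : ℝ) < 2 * L ^ 2 + 1 := Nat.ceil_lt_add_one (by positivity)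
  have hk3 : 1 ≤ k := by
    have h1 : 1 ≤ L ^ 2 := one_le_pow₀ hL1
    have : (1 : ℝ) ≤ k := by linarith
    exact_mod_cast this
  have hloga : Real.log a = L - Real.log L := by
    rw [ha, Real.log_div hTpos.ne' hL0.ne']
  have hlow : ∀ x ∈ Set.Ioc a (σ * T),
      c * (ρ * L) ^ m ≤ ∫ t in Set.Ioi (0 : ℝ), om k (k / x) t * f t := by
    intro x hx
    have hx0 : 0 < x := ha0.trans hx.1
    have hx1 : 1 ≤ x := ((le_max_left _ _).trans haT).trans hx.1.le
    have hlx : Real.log a ≤ Real.log x := Real.log_le_log ha0 hx.1.le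
    have hlx2 : Real.log x ≤ L := Real.log_le_log hx0 (hx.2.trans hbT)
    have hlx0 : 0 ≤ Real.log x := Real.log_nonneg hx1
    have hlx3 : ρ * L ≤ Real.log x := by rw [hloga] at hlx; linarith
    have hlx4 : 7 / 8 * L ≤ Real.log x := by rw [hloga] at hlx; linarith
    refine le_trans ?_ (hT0 x (((le_max_right _ _).trans haT).trans hx.1.le) k ?_ ?_)
    · apply mul_le_mul_of_nonneg_left _ hc
      exact pow_le_pow_left₀ (by positivity) hlx3 m
    · have : Real.log x ^ 2 ≤ L ^ 2 := pow_le_pow_left₀ hlx0 hlx2 2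
      have h0 : 0 ≤ L ^ 2 := sq_nonneg L
      linarith
    · have : (7 / 8 * L) ^ 2 ≤ Real.log x ^ 2 := pow_le_pow_left₀ (by positivity) hlx4 2
      have h0 : (7 / 8 * L) ^ 2 = 49 / 64 * L ^ 2 := by ring
      have h1 : 1 ≤ L ^ 2 := one_le_pow₀ hL1
      linarith
  have htail : ∀ t, T < t → f t * Ph k (k * t / (σ * T)) ≤ t ^ (-2 : ℝ) := by
    intro t ht
    refine tail_bound hf0 hC hCA hσ0 hσ1 hT1 hCT hL1 ?_ hk1 ht
    rw [← hγ]
    rw [div_le_iff₀ (by positivity)] at t5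
    linarith
  have hmain := main_T hf hf0 hk3 ha0 hab' hbT (by positivity) hlow htail
  have h1 : c * (ρ * L) ^ m * (ρ * T) ≤ c * (ρ * L) ^ m * (σ * T - a) :=
    mul_le_mul_of_nonneg_left hab (by positivity)
  have h2 : c * (ρ * L) ^ m * (ρ * T) = (c * ρ ^ (m + 1)) * (T * L ^ m) := by
    rw [mul_pow]; ring
  have hLm : 1 ≤ L ^ m := one_le_pow₀ hL1
  have h3 : 1 / T ≤ κ0 * (T * L ^ m) := by
    have h4 : 1 / T ≤ 1 := by rw [div_le_one hTpos]; exact hT1
    have h5 : 1 ≤ κ0 * T := by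
      rw [div_le_iff₀ hκ0'] at hκT; linarith
    have h6 : κ0 * T * 1 ≤ κ0 * T * L ^ m := mul_le_mul_of_nonneg_left hLm (by positivity)
    linarith
  have h4 : c' * T * L ^ m = (c * ρ ^ (m + 1)) * (T * L ^ m) - κ0 * (T * L ^ m) := by
    rw [hκ0]; ring
  rw [h4]
  linarith

end

end Pool.Agent.H965R2.SMT1
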