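import Pool.Agent.H295R2.MK.Defs

set_option autoImplicit false

/-! F3: the lower bound for the moments of exponent `4j` from `Fixed` and `Const`. -/

namespace Pool.Agent.H965R2.MK_F3

open Finset Filter Topology MeasureTheory Complex
open Pool.Agent.H306R2
open H295MK

lemma volE_pos (q : ℕ) : 0 < volE q := by
  unfold volE
  positivity

lemma volN_pos (q : ℕ) : 0 < volN q := by
  unfold volN
  positivity

/-- F3 -/
theorem mainK (h1 : Fixed) (h2 : Const) : MainK := by
  intro j c hj hc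
  have hj0 : (0:ℝ) < j := by exact_mod_cast hj
  have haF : 0 < aF (2 * (j : ℝ)) := aF_pos (by positivity)
  rw [← h2 j hj] at hc
  set E0 := aF (2 * (j : ℝ)) * ((1 / 2) ^ (4 * j ^ 2) * volE (j ^ 2)) with hE
  set N0 := aF (2 * (j : ℝ)) * ((1 / 2) ^ (4 * j ^ 2) * volN (j ^ 2)) with hN
  have hE0 : 0 < E0 := by
    have := volE_pos (j ^ 2)
    positivity
  have hN0 : 0 < N0 := by
    have := volN_pos (j ^ 2)
    positivity
  set f : ℝ → ℝ := fun x => (((1 - x) * E0) ^ 2 / ((1 + x) * N0)) *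
    ((1 - x) ^ 4 * (1 - 2 * x) * (1 - 2 * x) ^ (4 * j ^ 2)) with hf
  have hf0 : f 0 = E0 ^ 2 / N0 := by
    rw [hf]
    simp
  have hlim : Tendsto f (𝓝[>] 0) (𝓝 (f 0)) := by
    have h3 : ContinuousAt f 0 := by
      rw [hf]
      refine ContinuousAt.mul (ContinuousAt.div (by fun_prop) (by fun_prop) ?_) (by fun_prop)
      simp only [add_zero, one_mul]
      exact hN0.ne'
    exact h3.tendsto.mono_left nhdsWithin_le_nhds
  rw [hf0] at hlim
  obtain ⟨x, hxc, hx0, hx4⟩ := ((hlim.eventually_const_lt hc).and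
    (Ioo_mem_nhdsGT (by norm_num : (0:ℝ) < 1 / 4))).exists
  have hmain := h1 j ((1 - x) * E0) ((1 + x) * N0) x hj (mul_pos (by linarith) hE0)
    (by
      rw [← hE]
      nlinarith)
    (by
      rw [← hN]
      nlinarith) hx0 hx4
  filter_upwards [hmain, eventually_gt_atTop 1] with T hT hT1
  refine le_trans ?_ hT
  have hlog : 0 ≤ Real.log T := Real.log_nonneg hT1.le
  have : 0 ≤ T * Real.log T ^ (4 * j ^ 2) := by positivity
  exact mul_le_mul_of_nonneg_right hxc.le this

end Pool.Agent.H965R2.MK_F3
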