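import Pool.Agent.H864R3.Defs

/-!
Task T9 of helper864 (MP_f059bd_gt): fine configurations have edges in two transversal directions at
each point.
-/

set_option autoImplicit false
set_option linter.unusedVariables false
set_option linter.unusedSectionVars false

open Set Metric Filter Topology
open scoped ContDiff InnerProductSpace NNReal

namespace H965R2.GNT9

open Pool.Agent.H864R3

variable {E : Type} [NormedAddCommGroup E] [InnerProductSpace ℝ E] [FiniteDimensional ℝ E]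

/-- uniform control of `W` near the points at distance `r / 2` -/
theorem unif {S : RS E} (L : LE S) : ∃ ε > 0, ∀ f ∈ S.FB, ∀ y ∈ S.S,
    ‖(S.Φ (L.r / 2) f).1 - y‖ < ε → ‖f.1 - y‖ < L.ρ ∧
      ‖L.W (f.1, y) - (L.r / 2) • f.2.1‖ < L.r / 100 := by
  have hr := L.r_pos
  have hρ := L.r_lt
  set g : E × E × E → E × E := fun f => (f.1, (S.Φ (L.r / 2) f).1) with hg
  have hgc : Continuous g := by
    have h1 : Continuous (fun f : E × E × E => S.Φ (L.r / 2) f) :=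
      S.Φ_cont.comp (continuous_const.prodMk continuous_id)
    exact continuous_fst.prodMk (continuous_fst.comp h1)
  have hK : IsCompact (g '' S.FB) := S.FB_compact.image hgc
  have hdist : ∀ f ∈ S.FB, ‖f.1 - (S.Φ (L.r / 2) f).1‖ ≤ L.r / 2 := by
    intro f hf
    have := S.norm_pos_sub_le (S.FB_sub_M hf one_le_two) (R := 1) hf.2.2.2.1.le (L.r / 2)
    rw [norm_sub_rev]
    rw [abs_of_pos (by linarith), one_mul] at this
    exact this
  have hcont : ∀ a ∈ g '' S.FB, ContinuousAt L.W a := by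
    rintro _ ⟨f, hf, rfl⟩
    refine L.smooth.continuousOn.continuousAt (L.O_open.mem_nhds ?_)
    exact L.O_mem _ hf.1 _ (S.Φ_FB hf _).1 (by linarith [hdist f hf])
  have hun := hK.uniformContinuousAt_of_continuousAt L.W hcont
    (Metric.dist_mem_uniformity (show (0:ℝ) < L.r / 100 by linarith))
  obtain ⟨δ, hδ, hδ2⟩ := Metric.mem_uniformity_dist.1 hun
  refine ⟨min δ (L.ρ - L.r / 2), lt_min hδ (by linarith), ?_⟩
  intro f hf y hy hfy
  have h1 : ‖(S.Φ (L.r / 2) f).1 - y‖ < δ := lt_of_lt_of_le hfy (min_le_left _ _)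
  have h2 : ‖(S.Φ (L.r / 2) f).1 - y‖ < L.ρ - L.r / 2 := lt_of_lt_of_le hfy (min_le_right _ _)
  constructor
  · have h3 : ‖f.1 - y‖ ≤ ‖f.1 - (S.Φ (L.r / 2) f).1‖ + ‖(S.Φ (L.r / 2) f).1 - y‖ := by
      have := norm_add_le (f.1 - (S.Φ (L.r / 2) f).1) ((S.Φ (L.r / 2) f).1 - y)
      rwa [sub_add_sub_cancel] at this
    linarith [hdist f hf]
  · have h4 : dist (g f) (f.1, y) < δ := by
      simp only [hg, Prod.dist_eq, dist_self]
      rw [max_eq_right dist_nonneg, dist_eq_norm]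
      exact h1
    have h5 := hδ2 h4 ⟨f, hf, rfl⟩
    have h6 : dist (L.W (g f)) (L.W (f.1, y)) < L.r / 100 := h5
    have h7 : L.W (g f) = (L.r / 2) • f.2.1 := L.geo f hf _ (by linarith) (by linarith)
    rw [h7, dist_comm, dist_eq_norm] at h6
    exact h6

/-- normalised vectors near a unit vector -/
theorem near_self {W w : E} {r : ℝ} (hr : 0 < r) (hw : ‖w‖ = 1) (h : ‖W - (r / 2) • w‖ < r / 100) :
    1 / 2 < ⟪‖W‖⁻¹ • W, w⟫_ℝ ∧ 0 < ‖W‖ ∧ ‖W‖ ≤ 51 / 100 * r := by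
  have h1 : ⟪W, w⟫_ℝ = r / 2 + ⟪W - (r / 2) • w, w⟫_ℝ := by
    rw [inner_sub_left, inner_smul_left, real_inner_self_eq_norm_sq, hw]
    simp
  have h2 : |⟪W - (r / 2) • w, w⟫_ℝ| ≤ r / 100 := by
    refine (abs_real_inner_le_norm _ _).trans ?_
    rw [hw, mul_one]; exact h.le
  have h3 : ‖W‖ ≤ 51 / 100 * r := by
    have : ‖W‖ ≤ ‖W - (r / 2) • w‖ + ‖(r / 2) • w‖ := by
      have := norm_add_le (W - (r / 2) • w) ((r / 2) • w)
      rwa [sub_add_cancel] at this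
    rw [norm_smul, hw, mul_one, Real.norm_eq_abs, abs_of_pos (by linarith : (0:ℝ) < r / 2)] at this
    linarith
  have h4 : 49 / 100 * r ≤ ⟪W, w⟫_ℝ := by
    rw [h1]
    linarith [(abs_le.1 h2).1]
  have h5 : 49 / 100 * r ≤ ‖W‖ := by
    have := real_inner_le_norm W w
    rw [hw, mul_one] at this
    linarith
  have h6 : 0 < ‖W‖ := by linarith [mul_pos (by norm_num : (0:ℝ) < 49/100) hr]
  refine ⟨?_, h6, h3⟩
  rw [inner_smul_left]
  simp only [conj_trivial]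
  rw [inv_mul_eq_div, lt_div_iff₀ h6]
  nlinarith

theorem near_orth {W n w : E} {r : ℝ} (hr : 0 < r) (hw : ‖w‖ = 1) (hn : ‖n‖ = 1)
    (hnw : ⟪n, w⟫_ℝ = 0) (h : ‖W - (r / 2) • n‖ < r / 100) :
    |⟪‖W‖⁻¹ • W, w⟫_ℝ| < 1 / 2 := by
  have h1 : ⟪W, w⟫_ℝ = ⟪W - (r / 2) • n, w⟫_ℝ := by
    rw [inner_sub_left, inner_smul_left, hnw]
    simp
  have h2 : |⟪W, w⟫_ℝ| ≤ r / 100 := by
    rw [h1]
    refine (abs_real_inner_le_norm _ _).trans ?_
    rw [hw, mul_one]; exact h.le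
  have h5 : 49 / 100 * r ≤ ‖W‖ := by
    have h6 : ‖(r / 2) • n‖ ≤ ‖W‖ + ‖W - (r / 2) • n‖ := by
      have := norm_sub_le W (W - (r / 2) • n)
      rwa [sub_sub_cancel] at this
    rw [norm_smul, hn, mul_one, Real.norm_eq_abs, abs_of_pos (by linarith : (0:ℝ) < r / 2)] at h6
    linarith
  have h6 : 0 < ‖W‖ := by linarith [mul_pos (by norm_num : (0:ℝ) < 49/100) hr]
  rw [inner_smul_left]
  simp only [conj_trivial]
  rw [abs_mul, abs_inv, abs_norm, inv_mul_eq_div, div_lt_iff₀ h6]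
  nlinarith

/-- TASK T9 (fine configurations have edges in all directions). -/
theorem directions {S : RS E} (L : LE S) : ∃ ε > 0, ∀ (N : ℕ) (X : Fin N → E),
    (∀ i, X i ∈ S.S) → (∀ z ∈ S.S, ∃ i, ‖z - X i‖ < ε) → ∀ i, ∃ j k,
      L.Edge (X i) (X j) ∧ L.Edge (X i) (X k) ∧ ‖L.W (X i, X j)‖ ≤ 3 / 4 * L.r ∧
      ‖L.W (X i, X k)‖ ≤ 3 / 4 * L.r ∧
      L.u (X i, X j) ≠ L.u (X i, X k) ∧ L.u (X i, X j) ≠ - L.u (X i, X k) := by
  obtain ⟨ε, hε, hun⟩ := unif L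
  refine ⟨ε, hε, ?_⟩
  intro N X hX hfine i
  have hr := L.r_pos
  obtain ⟨w, n, hf⟩ := S.exists_frame' (hX i)
  have hf' : ((X i, n, -w) : E × E × E) ∈ S.FB := S.quarter _ hf
  obtain ⟨j, hj⟩ := hfine _ (S.Φ_FB hf (L.r / 2)).1
  obtain ⟨k, hk⟩ := hfine _ (S.Φ_FB hf' (L.r / 2)).1
  obtain ⟨hj1, hj2⟩ := hun _ hf (X j) (hX j) hj
  obtain ⟨hk1, hk2⟩ := hun _ hf' (X k) (hX k) hk
  simp only at hj1 hj2 hk1 hk2
  have hw1 : ‖w‖ = 1 := hf.2.2.2.1
  have hn1 : ‖n‖ = 1 := hf.2.2.2.2.1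
  have hwn : ⟪n, w⟫_ℝ = 0 := by rw [real_inner_comm]; exact hf.2.2.2.2.2
  obtain ⟨a1, a2, a3⟩ := near_self hr hw1 hj2
  obtain ⟨b1, b2, b3⟩ := near_self hr hn1 hk2
  have c1 := near_orth hr hw1 hn1 hwn hk2
  have hne : ∀ l, 0 < ‖L.W (X i, X l)‖ → X i ≠ X l := by
    intro l hl he
    rw [← he, L.W_self (hX i), norm_zero] at hl
    exact lt_irrefl _ hl
  refine ⟨j, k, ⟨hX i, hX j, hne j a2, hj1, by linarith⟩, ⟨hX i, hX k, hne k b2, hk1, by linarith⟩,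
    by linarith, by linarith, ?_, ?_⟩
  · intro he
    unfold LE.u at he
    rw [he] at a1
    have := (abs_lt.1 c1).2
    linarith
  · intro he
    unfold LE.u at he
    rw [he, inner_neg_left] at a1
    have := (abs_lt.1 c1).1
    linarith

end H965R2.GNT9
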