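import Pool.Agent.H718R2.G0

open scoped Manifold ContDiff Topology
open Set

namespace Pool.Agent.H965R2.CL

open Pool.Agent.H718R2.G

namespace K5c

variable {n : ℕ} {M : Type*} [TopologicalSpace M] [ChartedSpace (V n) M]

/-- data of the pushes -/
structure Push (n : ℕ) (M : Type*) [TopologicalSpace M] [ChartedSpace (V n) M] where
  B : ℕ → Set M
  S : ℕ → Set M
  z : ℕ → M
  h : ℕ → DiffM n M ⊤
  lf : LocallyFinite B
  sub : ∀ k, S k ⊆ B k
  zB : ∀ k, z k ∈ B k
  hz : ∀ k, h k (z k) = z (k + 1)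
  hid : ∀ k, ∀ y ∉ S k, h k y = y

variable (P : Push n M)

/-- the compositions `h_{k-1} ∘ ⋯ ∘ h_0` -/
noncomputable def HH : ℕ → DiffM n M ⊤
  | 0 => Diffeomorph.refl (𝓡 n) M ∞
  | k + 1 => (HH k).trans (P.h k)

theorem HH_z (k : ℕ) : HH P k (P.z 0) = P.z k := by
  induction k with
  | zero => rfl
  | succ k ih =>
    show P.h k (HH P k (P.z 0)) = _
    rw [ih, P.hz]

theorem h_symm_id (k : ℕ) {y : M} (hy : y ∉ P.B k) : (P.h k).symm y = y := by
  have h1 : P.h k y = y := P.hid k y fun h => hy (P.sub k h)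
  conv_lhs => rw [← h1]
  exact (P.h k).symm_apply_apply y

theorem HH_symm_succ (k : ℕ) (y : M) : (HH P (k + 1)).symm y = (HH P k).symm ((P.h k).symm y) :=
  rfl

theorem HH_symm_stable {J : ℕ} {y : M} (hy : ∀ j, J ≤ j → y ∉ P.B j) (j : ℕ) (hj : J ≤ j) :
    (HH P j).symm y = (HH P J).symm y := by
  induction j, hj using Nat.le_induction with
  | base => rfl
  | succ j hj ih => rw [HH_symm_succ, h_symm_id P j (hy j hj), ih]

/-- locally finite: near each point only finitely many `B j` are met -/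
theorem exists_nbhd (y : M) : ∃ (J : ℕ) (N : Set M), IsOpen N ∧ y ∈ N ∧
    ∀ y' ∈ N, ∀ j, J ≤ j → y' ∉ P.B j := by
  obtain ⟨t, ht, hfin⟩ := P.lf y
  obtain ⟨N, hNt, hN, hy⟩ := mem_nhds_iff.1 ht
  obtain ⟨J, hJ⟩ := hfin.bddAbove
  refine ⟨J + 1, N, hN, hy, fun y' hy' j hj hB => ?_⟩
  have : j ≤ J := hJ ⟨y', hB, hNt hy'⟩
  omega

/-- the limit of the inverses -/
noncomputable def GG (y : M) : M := (HH P (exists_nbhd P y).choose).symm y

theorem GG_eq {J : ℕ} {y : M} (hy : ∀ j, J ≤ j → y ∉ P.B j) : GG P y = (HH P J).symm y := by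
  set J' := (exists_nbhd P y).choose with hJ'
  obtain ⟨N, hN, hyN, h⟩ := (exists_nbhd P y).choose_spec
  have h1 := HH_symm_stable P (fun j hj => h y hyN j hj) (max J J') (le_max_right _ _)
  have h2 := HH_symm_stable P hy (max J J') (le_max_left _ _)
  show (HH P J').symm y = _
  rw [← h1, h2]

theorem GG_inj : Function.Injective (GG P) := by
  intro a b hab
  obtain ⟨J1, N1, -, h1, h2⟩ := exists_nbhd P a
  obtain ⟨J2, N2, -, h3, h4⟩ := exists_nbhd P b
  rw [GG_eq P (J := max J1 J2) fun j hj => h2 a h1 j (le_trans (le_max_left _ _) hj),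
    GG_eq P (J := max J1 J2) fun j hj => h4 b h3 j (le_trans (le_max_right _ _) hj)] at hab
  exact (HH P (max J1 J2)).symm.injective hab

theorem GG_contMDiff : ContMDiff (𝓡 n) (𝓡 n) ∞ (GG P) := by
  intro y
  obtain ⟨J, N, hN, hy, h⟩ := exists_nbhd P y
  have h1 : ContMDiffAt (𝓡 n) (𝓡 n) ∞ (HH P J).symm y := (HH P J).symm.contMDiff y
  refine h1.congr_of_eventuallyEq ?_
  filter_upwards [hN.mem_nhds hy] with y' hy'
  exact GG_eq P fun j hj => h y' hy' j hj

theorem GG_isOpenMap : IsOpenMap (GG P) := by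
  rw [isOpenMap_iff_nhds_le]
  intro y
  obtain ⟨J, N, hN, hy, h⟩ := exists_nbhd P y
  have h1 : IsOpenMap (HH P J).symm := (HH P J).symm.toHomeomorph.isOpenMap
  have h2 := (isOpenMap_iff_nhds_le.1 h1) y
  have h3 : GG P y = (HH P J).symm y := GG_eq P fun j hj => h y hy j hj
  rw [h3]
  refine h2.trans (le_of_eq ?_)
  apply Filter.map_congr
  filter_upwards [hN.mem_nhds hy] with y' hy'
  exact (GG_eq P fun j hj => h y' hy' j hj).symm

theorem GG_emb : Topology.IsOpenEmbedding (GG P) :=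
  Topology.IsOpenEmbedding.of_continuous_injective_isOpenMap (GG_contMDiff P).continuous
    (GG_inj P) (GG_isOpenMap P)

theorem z_not_mem : P.z 0 ∉ range (GG P) := by
  rintro ⟨y, hy⟩
  obtain ⟨J, N, hN, hyN, h⟩ := exists_nbhd P y
  have h1 : GG P y = (HH P J).symm y := GG_eq P fun j hj => h y hyN j hj
  rw [h1] at hy
  have h2 : y = HH P J (P.z 0) := by
    rw [← hy]; exact ((HH P J).apply_symm_apply y).symm
  rw [HH_z] at h2
  exact h y hyN J le_rfl (h2 ▸ P.zB J)

theorem main (P : Push n M) :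
    ∃ H : OpenPartialHomeomorph M M, H.target = univ ∧ H.source ≠ univ ∧
      ContMDiffOn (𝓡 n) (𝓡 n) ∞ H H.source ∧ ContMDiff (𝓡 n) (𝓡 n) ∞ H.symm := by
  have : Nonempty M := ⟨P.z 0⟩
  let G := (GG_emb P).toOpenPartialHomeomorph (GG P)
  have hGs : G.source = univ := rfl
  have hGt : G.target = range (GG P) := by
    simp [G]
  have hGc : ∀ y, G y = GG P y := fun y => rfl
  refine ⟨G.symm, hGs, ?_, ?_, ?_⟩
  · intro h
    have h1 : G.target = univ := h
    rw [hGt] at h1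
    exact z_not_mem P (h1 ▸ mem_univ _)
  · intro x hx
    have hx' : x ∈ range (GG P) := by
      have : x ∈ G.target := hx
      rwa [hGt] at this
    obtain ⟨y, rfl⟩ := hx'
    obtain ⟨J, N, hN, hyN, h⟩ := exists_nbhd P y
    have h1 : ContMDiffAt (𝓡 n) (𝓡 n) ∞ (HH P J) (GG P y) := (HH P J).contMDiff _
    apply ContMDiffAt.contMDiffWithinAt
    refine h1.congr_of_eventuallyEq ?_
    have hopen : IsOpen (GG P '' N) := GG_isOpenMap P N hN
    filter_upwards [hopen.mem_nhds ⟨y, hyN, rfl⟩] with x' hx'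
    obtain ⟨y', hy', rfl⟩ := hx'
    have h2 : G.symm (GG P y') = y' := by
      have := G.left_inv (x := y') (by rw [hGs]; trivial)
      exact this
    rw [h2, GG_eq P fun j hj => h y' hy' j hj]
    exact ((HH P J).apply_symm_apply y').symm
  · show ContMDiff (𝓡 n) (𝓡 n) ∞ G
    exact GG_contMDiff P

end K5c

/-- K5c, from K5a (`hmove`) and K5b (`hray`). -/
theorem exists_push_of {n : ℕ} {M : Type*} [TopologicalSpace M] [T2Space M]
    [ChartedSpace (V n) M]
    (hmove : ∀ {U : Set M}, IsOpen U → IsPreconnected U → ∀ {p q : M}, p ∈ U → q ∈ U →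
      ∃ (h : DiffM n M ⊤) (S : Set M), IsCompact S ∧ S ⊆ U ∧ h p = q ∧ ∀ y ∉ S, h y = y)
    (hray : ∃ B : ℕ → Set M, (∀ k, IsOpen (B k)) ∧ (∀ k, IsPreconnected (B k)) ∧
      LocallyFinite B ∧ ∀ k, (B k ∩ B (k + 1)).Nonempty) :
    ∃ H : OpenPartialHomeomorph M M, H.target = univ ∧ H.source ≠ univ ∧
      ContMDiffOn (𝓡 n) (𝓡 n) ∞ H H.source ∧ ContMDiff (𝓡 n) (𝓡 n) ∞ H.symm := by
  obtain ⟨B, hB1, hB2, hB3, hB4⟩ := hray
  choose z hz using hB4
  have hmv := fun k => hmove (hB1 (k + 1)) (hB2 (k + 1)) (hz k).2 (hz (k + 1)).1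
  choose h S hS1 hS2 hS3 hS4 using hmv
  have hinj : Function.Injective fun k : ℕ => k + 1 := fun a b hab => by simpa using hab
  exact K5c.main
    { B := fun k => B (k + 1)
      S := S
      z := z
      h := h
      lf := hB3.comp_injective hinj
      sub := hS2
      zB := fun k => (hz k).2
      hz := hS3
      hid := hS4 }

end Pool.Agent.H965R2.CL
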